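import Pool.Agent.Lib.MP_dbdc94_co.Main

/-!
# MP_dbdc94_co: no real chromatic zeros above 4 for graphs obtained by repeated doubling
-/

set_option autoImplicit false

open Polynomial Pool.Agent.Rp

namespace Pool.Agent.Results.MP_dbdc94_co.MirrorClass

/-- Every graph obtained from graphs without a minor of minimum degree at least `5` by repeated
mirror doubling is finite, has a unique chromatic polynomial, and this is positive on `(4, ∞)`. -/
theorem result : ∀ (V : Type) (G : SimpleGraph V), Kal V G →
    Finite V ∧ (∃! P : ℝ[X], IsChrom G P) ∧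
      ∀ P : ℝ[X], IsChrom G P → ∀ x : ℝ, 4 < x → 0 < P.eval x := by
  intro V G h
  have hf : Finite V := kal_finite G h
  obtain ⟨P, hP⟩ := exists_isChrom G
  exact ⟨hf, ⟨P, hP, fun Q hQ => isChrom_unique G Q P hQ hP⟩, fun P hP x hx =>
    kal_pos G h P hP x hx⟩

end Pool.Agent.Results.MP_dbdc94_co.MirrorClass
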