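import Pool.Agent.Lib.MP_dbdc94_co.Ineq

/-!
# MP_dbdc94_co: reflection positivity of chromatic polynomials of plane graphs
-/

set_option autoImplicit false

open Polynomial Pool.Agent.Rp

namespace Pool.Agent.Results.MP_dbdc94_co.ReflectionPositivity

/-- Chromatic polynomials of finite graphs exist and are unique; and if `N`, `U` are crossless
graphs with the common boundary vertices `0, …, n - 1`, then for every real `x ≥ 4` the chromatic
polynomials satisfy `0 ≤ P (N ∪ N)` and `P (N ∪ U) ^ 2 ≤ P (N ∪ N) * P (U ∪ U)` at `x`. -/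
theorem result :
    (∀ (V : Type) [Finite V] (G : SimpleGraph V), ∃! P : ℝ[X], IsChrom G P) ∧
      ∀ (n : ℕ) (X Y : Type) [Finite X] [Finite Y] (N : SimpleGraph (Fin n ⊕ X))
        (U : SimpleGraph (Fin n ⊕ Y)), Crossless N → Crossless U →
        ∀ PNU PNN PUU : ℝ[X], IsChrom (glue N U) PNU → IsChrom (glue N N) PNN →
          IsChrom (glue U U) PUU → ∀ x : ℝ, 4 ≤ x →
            0 ≤ PNN.eval x ∧ PNU.eval x ^ 2 ≤ PNN.eval x * PUU.eval x := by
  refine ⟨fun V _ G => ?_, fun n X Y _ _ N U hN hU PNU PNN PUU h1 h2 h3 x hx =>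
    refl_pos N U hN hU PNU PNN PUU h1 h2 h3 x hx⟩
  obtain ⟨P, hP⟩ := exists_isChrom G
  exact ⟨P, hP, fun Q hQ => isChrom_unique G Q P hQ hP⟩

end Pool.Agent.Results.MP_dbdc94_co.ReflectionPositivity
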